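import Pool.Agent.TH686.DO.Inv2

set_option autoImplicit false

/-! Vaught's conjecture (perfect-set form) for all first-order theories in all countable languages
is equivalent to its restriction to the complete theories of two dense linear orders without
endpoints on the same set, and to its restriction to the complete theories of a dense linear order
without endpoints with an involution. -/

namespace Pool.Agent.Results.MP_5df2c5_lc.DenseOrderExpansions

open FirstOrder
open Pool.Agent.TH686.FO (R2 L2)

/-- Vaught's conjecture, perfect-set form, for the theory `T` in the language `L` (the body of the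
frozen statement): the models with universe `ℕ` fall into countably many isomorphism classes, or
some continuous family of models, indexed by the Cantor space, consists of pairwise
non-isomorphic models. -/
def Dichotomy (L : FirstOrder.Language.{0, 0}) (T : L.Theory) : Prop :=
  (∃ g : ℕ → L.Structure ℕ, ∀ S : L.Structure ℕ,
      @FirstOrder.Language.Theory.Model L ℕ S T →
        ∃ n : ℕ, Nonempty (@FirstOrder.Language.Equiv L ℕ ℕ S (g n))) ∨
  (∃ f : (ℕ → Bool) → L.Structure ℕ,
      (∀ x : ℕ → Bool, @FirstOrder.Language.Theory.Model L ℕ (f x) T) ∧
      (∀ x y : ℕ → Bool,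
          Nonempty (@FirstOrder.Language.Equiv L ℕ ℕ (f x) (f y)) → x = y) ∧
      (∀ (n : ℕ) (R : L.Relations n) (a : Fin n → ℕ),
          IsClopen {x : ℕ → Bool | @FirstOrder.Language.Structure.RelMap L ℕ (f x) n R a}) ∧
      (∀ (n : ℕ) (F : L.Functions n) (a : Fin n → ℕ) (b : ℕ),
          IsOpen {x : ℕ → Bool | @FirstOrder.Language.Structure.funMap L ℕ (f x) n F a = b}))

/-- Vaught's conjecture for all first-order theories in all countable languages (the frozen
statement). -/
def FullConjecture : Prop :=
  ∀ L : FirstOrder.Language.{0, 0}, Countable L.Symbols → ∀ T : L.Theory, Dichotomy L T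

/-- The binary relation which interprets the symbol `Q` in the structure `S`, in the language with
two binary relation symbols. -/
def Rel (S : L2.Structure ℕ) (Q : L2.Relations 2) (u v : ℕ) : Prop :=
  @FirstOrder.Language.Structure.RelMap L2 ℕ S 2 Q ![u, v]

/-- `r` is a dense strict linear order of `ℕ` without endpoints. -/
structure DenseOrder (r : ℕ → ℕ → Prop) : Prop where
  irrefl : ∀ u, ¬ r u u
  trans : ∀ u v w, r u v → r v w → r u w
  total : ∀ u v, u ≠ v → r u v ∨ r v u
  dense : ∀ u v, r u v → ∃ w, r u w ∧ r w v
  above : ∀ u, ∃ w, r u w
  below : ∀ u, ∃ w, r w u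

/-- `s` is the graph of an involution of `ℕ` without fixed points which exchanges an initial segment
of the order `r` with its complement. -/
structure Involution (r s : ℕ → ℕ → Prop) : Prop where
  symm : ∀ u v, s u v → s v u
  noFixedPoint : ∀ u, ¬ s u u
  unique : ∀ u v w, s u v → s u w → v = w
  total : ∀ u, ∃ v, s u v
  exchange : ∀ u u' v v', s u u' → s v v' → r u u' → r v v' → r u v'

/-- The following are equivalent: Vaught's conjecture for all first-order theories in all countable
languages; its restriction to the complete theories, in the language with two binary relation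
symbols, all of whose models on `ℕ` consist of two dense linear orders without endpoints; its
restriction to the complete theories in this language all of whose models on `ℕ` consist of a dense
linear order without endpoints and the graph of a fixed point free involution which exchanges an
initial segment with its complement. -/
theorem result :
    (FullConjecture ↔
      ∀ T : L2.Theory, T.IsComplete →
        (∀ S : L2.Structure ℕ, @FirstOrder.Language.Theory.Model L2 ℕ S T →
          DenseOrder (Rel S R2.fst) ∧ DenseOrder (Rel S R2.snd)) →
        Dichotomy L2 T) ∧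
    (FullConjecture ↔
      ∀ T : L2.Theory, T.IsComplete →
        (∀ S : L2.Structure ℕ, @FirstOrder.Language.Theory.Model L2 ℕ S T →
          DenseOrder (Rel S R2.fst) ∧ Involution (Rel S R2.fst) (Rel S R2.snd)) →
        Dichotomy L2 T) := by
  refine ⟨⟨?_, ?_⟩, ⟨?_, ?_⟩⟩
  · intro h T _ _
    exact h L2 TH686.FO.countable_L2s T
  · intro h L hL T
    refine TH686.DO.full_dd (fun T' h1 h2 => ?_) L hL T
    refine h T' h1 fun S hS => ?_
    obtain ⟨h3, h4⟩ := h2 S hS
    exact ⟨⟨h3.1.1, h3.1.2, h3.1.3, h3.2, h3.3, h3.4⟩, ⟨h4.1.1, h4.1.2, h4.1.3, h4.2, h4.3, h4.4⟩⟩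
  · intro h T _ _
    exact h L2 TH686.FO.countable_L2s T
  · intro h L hL T
    refine TH686.DO.full_inv (fun T' h1 h2 => ?_) L hL T
    refine h T' h1 fun S hS => ?_
    have h3 := h2 S hS
    exact ⟨⟨h3.o.1, h3.o.2, h3.o.3, h3.dn, h3.ab, h3.be⟩, ⟨h3.sy, h3.ir, h3.fn, h3.tot, h3.cut⟩⟩

end Pool.Agent.Results.MP_5df2c5_lc.DenseOrderExpansions
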