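import Pool.Agent.TH425.FF.Cun

set_option autoImplicit false

/-!
Vaught's conjecture, in perfect-set form for Borel classes of countable structures, holds for the
structures whose binary relations depend only on a finite colouring off the edges of some graph
without infinite clique subdivision, and for all classes obtained from these and from the completely
decomposable structures by ordered sums, generalised sums, tree sums, infinite prime quotients,
countable unions, and equivariant Borel codings with finitely many parameters.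
-/

namespace Pool.Agent.Results.MP_5df2c5_lc.FiniteFlips

/-- Relational structures on `ℕ` with relations of arities `a 0, a 1, ...`. -/
abbrev Str (a : ℕ → ℕ) : Type := (i : ℕ) → (Fin (a i) → ℕ) → Bool

/-- Structures with further unary predicates. -/
abbrev UStr (a : ℕ → ℕ) : Type := Str a × (ℕ → ℕ → Bool)

/-- Isomorphism of structures. -/
def Iso {a : ℕ → ℕ} (x y : Str a) : Prop :=
  ∃ σ : Equiv.Perm ℕ, ∀ (i : ℕ) (v : Fin (a i) → ℕ), y i (⇑σ ∘ v) = x i v

/-- Isomorphism of structures with unary predicates. -/
def UIso {a : ℕ → ℕ} (x y : UStr a) : Prop :=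
  ∃ σ : Equiv.Perm ℕ, (∀ (i : ℕ) (v : Fin (a i) → ℕ), y.1 i (⇑σ ∘ v) = x.1 i v) ∧
    ∀ i u, y.2 i (σ u) = x.2 i u

/-- The class `V` satisfies Vaught's conjecture, in perfect-set form: every isomorphism-invariant
Borel subclass `B` of `V` has countably many isomorphism types, or there is a continuous family of
pairwise non-isomorphic members of `B` indexed by the Cantor space. -/
def Vaught {a : ℕ → ℕ} (V : Str a → Prop) : Prop :=
  ∀ B : Set (Str a), MeasurableSet B → (∀ x y, Iso x y → (x ∈ B ↔ y ∈ B)) → (∀ x ∈ B, V x) →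
    (∃ f : ℕ → Str a, ∀ x ∈ B, ∃ n, Iso (f n) x) ∨
    (∃ g : (ℕ → Bool) → Str a, Continuous g ∧ (∀ c, g c ∈ B) ∧ ∀ c d, Iso (g c) (g d) → c = d)

/-- The same for the isomorphism-invariant Borel classes of expansions of members of `V` by
countably many unary predicates. -/
def UVaught {a : ℕ → ℕ} (V : Str a → Prop) : Prop :=
  ∀ B : Set (UStr a), MeasurableSet B → (∀ x y, UIso x y → (x ∈ B ↔ y ∈ B)) →
    (∀ x ∈ B, V x.1) →
    (∃ f : ℕ → UStr a, ∀ x ∈ B, ∃ n, UIso (f n) x) ∨
    (∃ g : (ℕ → Bool) → UStr a, Continuous g ∧ (∀ c, g c ∈ B) ∧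
      ∀ c d, UIso (g c) (g d) → c = d)

/-- The tuple `(u, v)`. -/
def pair {n : ℕ} (u v : ℕ) : Fin n → ℕ := fun j => if j.val = 0 then u else v

/-- The tuple `(u, v, w)`. -/
def triple {n : ℕ} (u v w : ℕ) : Fin n → ℕ :=
  fun j => if j.val = 0 then u else if j.val = 1 then v else w

/-- `G` contains a subdivision of the infinite complete graph `K_ℵ₀`: distinct branch vertices
`v 0, v 1, ...` and for all `i < j` a path `P i j` in `G` from `v i` to `v j` whose only branch
vertices are its ends, such that different paths meet only in branch vertices. -/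
def HasInfiniteCliqueSubdivision (G : SimpleGraph ℕ) : Prop :=
  ∃ v : ℕ → ℕ, Function.Injective v ∧ ∃ P : ∀ i j, G.Walk (v i) (v j),
    (∀ i j, i < j → (P i j).IsPath) ∧
    (∀ i j k, i < j → v k ∈ (P i j).support → k = i ∨ k = j) ∧
    (∀ i j i' j', i < j → i' < j' → (i, j) ≠ (i', j') → ∀ x, x ∈ (P i j).support →
      x ∈ (P i' j').support → ∃ k, x = v k)

/-- `x` is a finite flip of a sparse structure: there are a graph `S` without infinite clique
subdivision, a colouring `p` of the points with finitely many colours and for every binary relation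
a pattern `f i` on the colours such that `x i (u, v) = f i (p u) (p v)` for all pairs of distinct
points that are not adjacent in `S`; the relations that are not binary hold only for tuples whose
entries are pairwise equal or adjacent in `S`. Neither `S` nor the colouring is part of the
structure. -/
def FlipSparse {a : ℕ → ℕ} (x : Str a) : Prop :=
  ∃ (S : SimpleGraph ℕ) (k : ℕ) (p : ℕ → Fin k) (f : ℕ → Fin k → Fin k → Bool),
    ¬ HasInfiniteCliqueSubdivision S ∧
    (∀ i, a i = 2 → ∀ u v, u ≠ v → ¬ S.Adj u v → x i (pair u v) = f i (p u) (p v)) ∧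
    (∀ i, a i ≠ 2 → ∀ t, x i t = true → ∀ j l, t j = t l ∨ S.Adj (t j) (t l))

/-- Only binary relations are nonempty, and every substructure with three or four points has a
nontrivial module, that is, a set of at least two and not all points such that no relation
distinguishes its points from outside. -/
def Decomposable {a : ℕ → ℕ} (x : Str a) : Prop :=
  (∀ i, a i ≠ 2 → ∀ t, x i t = false) ∧
  ∀ F : Finset ℕ, F.card = 3 ∨ F.card = 4 → ∃ X ⊆ F, 1 < X.card ∧ X.card < F.card ∧
    ∀ u ∈ X, ∀ v ∈ X, ∀ w ∈ F, w ∉ X → ∀ i, a i = 2 →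
      x i (pair u w) = x i (pair v w) ∧ x i (pair w u) = x i (pair w v)

/-- `x` is an ordered sum, over an arbitrary linear order, of finite structures and of infinite
structures in `V`: the relation number `ε` is a strict weak order and the other relations hold only
for tuples inside one incomparability class. -/
structure OrdSum {a : ℕ → ℕ} (ε : ℕ) (V : Str a → Prop) (x : Str a) : Prop where
  irrefl : ∀ u, x ε (pair u u) = false
  trans : ∀ u v w, x ε (pair u v) = true → x ε (pair v w) = true → x ε (pair u w) = true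
  weak : ∀ u v w, x ε (pair u w) = true → x ε (pair u v) = true ∨ x ε (pair v w) = true
  inside : ∀ i, i ≠ ε → ∀ t, x i t = true → ∀ j l, x ε (pair (t j) (t l)) = false
  blocks : ∀ (u : ℕ) (e : ℕ → ℕ), Function.Injective e →
    (∀ z, (x ε (pair z u) = false ∧ x ε (pair u z) = false) ↔ ∃ n, e n = z) →
    V (fun i v => if i ≠ ε then x i (e ∘ v) else false)

/-- `x` is a generalised sum of blocks over an index structure. The relation number `ε` is an
equivalence relation, its classes are the blocks. The relations `i ≠ ε` with `k i = false` hold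
only for tuples inside one block; the relations `i ≠ ε` with `k i = true` depend only on the
blocks of the entries. Every infinite block, with the relations of the first kind and transported
to `ℕ` by any bijection `e`, is in `V₂`; the structure of the blocks, with the relations of the
second kind, if there are infinitely many blocks, is in `V₁` (`e` is any enumeration of a system of
representatives). -/
structure GenSum {a : ℕ → ℕ} (ε : ℕ) (k : ℕ → Bool) (V₁ V₂ : Str a → Prop) (x : Str a) :
    Prop where
  refl : ∀ u, x ε (pair u u) = true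
  symm : ∀ u v, x ε (pair u v) = true → x ε (pair v u) = true
  trans : ∀ u v w, x ε (pair u v) = true → x ε (pair v w) = true → x ε (pair u w) = true
  inside : ∀ i, i ≠ ε → k i = false → ∀ t, x i t = true → ∀ j l, x ε (pair (t j) (t l)) = true
  across : ∀ i, i ≠ ε → k i = true → ∀ t t' : Fin (a i) → ℕ,
    (∀ j, x ε (pair (t j) (t' j)) = true) → x i t = x i t'
  blocks : ∀ (u : ℕ) (e : ℕ → ℕ), Function.Injective e →
    (∀ z, x ε (pair u z) = true ↔ ∃ n, e n = z) →
    V₂ (fun i v => if i ≠ ε ∧ k i = false then x i (e ∘ v) else false)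
  index : ∀ e : ℕ → ℕ, (∀ m n, x ε (pair (e m) (e n)) = true ↔ m = n) →
    (∀ z, ∃ n, x ε (pair (e n) z) = true) →
    V₁ (fun i v => if i ≠ ε ∧ k i = true then x i (e ∘ v) else false)

open Classical in
/-- `x` is a tree sum. The ternary relation number `δ` is a C-relation: `δ(u, v, w)` says that the
leaves `u`, `v` of a tree are together in a cone that does not contain `w`. All cones
`{v | δ(u, v, w)}` are modules for the other relations (`mod`). At every node with infinitely many
children, if `e` enumerates representatives of the children, the structure of the children is in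
`V`; nodes with finitely many children are arbitrary. -/
structure TreeSum {a : ℕ → ℕ} (δ : ℕ) (V : Str a → Prop) (x : Str a) : Prop where
  refl : ∀ u w, u ≠ w → x δ (triple u u w) = true
  irr : ∀ u v, x δ (triple u v u) = false
  symm : ∀ u v w, x δ (triple u v w) = true → x δ (triple v u w) = true
  asymm : ∀ u v w, x δ (triple u v w) = true → x δ (triple u w v) = false
  branch : ∀ u v w, x δ (triple u v w) = true → ∀ z,
    x δ (triple u v z) = true ∨ x δ (triple z v w) = true
  mod : ∀ i, i ≠ δ → ∀ (t : Fin (a i) → ℕ) (k l : Fin (a i)) (b : ℕ),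
    x δ (triple (t k) b (t l)) = true → x i (Function.update t k b) = x i t
  nodes : ∀ e : ℕ → ℕ, Function.Injective e →
    (∀ l m n, l ≠ m → l ≠ n → m ≠ n → x δ (triple (e l) (e m) (e n)) = false) →
    (∀ u, x δ (triple (e 0) (e 1) u) = false → ∃ n, ∀ m, m ≠ n →
      x δ (triple u (e n) (e m)) = true) →
    V (fun i v => if i ≠ δ ∧ ∃ j l, v j ≠ v l then x i (e ∘ v) else false)

/-- `X` is a module of `x`: the value of a relation at a tuple with an entry outside `X` does not
change if an entry in `X` is replaced by another point of `X`. -/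
def IsModule {a : ℕ → ℕ} (x : Str a) (X : Set ℕ) : Prop :=
  ∀ (i : ℕ) (t : Fin (a i) → ℕ) (k l : Fin (a i)) (b : ℕ),
    t k ∈ X → b ∈ X → t l ∉ X → x i (Function.update t k b) = x i t

/-- All modules with at least two points are the whole structure. -/
def IsPrime {a : ℕ → ℕ} (x : Str a) : Prop :=
  ∀ Y : Set ℕ, IsModule x Y → Y.Subsingleton ∨ Y = Set.univ

open Classical in
/-- The quotient structure with representatives `e 0, e 1, ...`; constant tuples are removed from
all relations. -/
noncomputable def quotient {a : ℕ → ℕ} (x : Str a) (e : ℕ → ℕ) : Str a :=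
  fun i v => if ∃ j l, v j ≠ v l then x i (e ∘ v) else false

/-- Every infinite prime quotient of `x` is in `V`: if a module of `x` is the union of disjoint
modules `X 0, X 1, ...` and the quotient is prime, then the quotient is in `V`. -/
def PrimeQuotientsIn {a : ℕ → ℕ} (V : Str a → Prop) (x : Str a) : Prop :=
  ∀ (X : ℕ → Set ℕ) (e : ℕ → ℕ), (∀ n, e n ∈ X n) → (∀ n, IsModule x (X n)) →
    (∀ m n, m ≠ n → Disjoint (X m) (X n)) → IsModule x (⋃ n, X n) →
    IsPrime (quotient x e) → V (quotient x e)

/-- Relabelling of a structure by a permutation. -/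
def act {a : ℕ → ℕ} (σ : Equiv.Perm ℕ) (x : Str a) : Str a := fun i v => x i (⇑σ.symm ∘ v)

/-- For every tuple of parameters `p` there are Borel maps `c p` and `d p` in both directions, and
they commute with the permutations of `ℕ`. (By the theorem of Lopez-Escobar these are the
interpretations given by formulas of `L_ω₁ω` with the parameters `p`.) -/
structure Coding {a b : ℕ → ℕ} (c : List ℕ → Str a → Str b) (d : List ℕ → Str b → Str a) :
    Prop where
  borel_c : ∀ p, Measurable (c p)
  borel_d : ∀ p, Measurable (d p)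
  act_c : ∀ (σ : Equiv.Perm ℕ) (p : List ℕ) (x : Str a), c (p.map σ) (act σ x) = act σ (c p x)
  act_d : ∀ (σ : Equiv.Perm ℕ) (p : List ℕ) (z : Str b), d (p.map σ) (act σ z) = act σ (d p z)

/-- The structures `x` which, for some finite tuple of parameters `p`, are coded by a structure
`c p x` in `V`, from which `d p` recovers `x`. -/
def Coded {a b : ℕ → ℕ} (c : List ℕ → Str a → Str b) (d : List ℕ → Str b → Str a)
    (V : Str b → Prop) (x : Str a) : Prop := ∃ p, V (c p x) ∧ d p (c p x) = x

/-- The class `V` is coanalytic. -/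
def Coanalytic {a : ℕ → ℕ} (V : Str a → Prop) : Prop := MeasureTheory.AnalyticSet {x | ¬ V x}

/-- The class `V` is closed under isomorphism. -/
def Invariant {a : ℕ → ℕ} (V : Str a → Prop) : Prop := ∀ x y, Iso x y → V x → V y

/-- The classes of structures (in all countable relational languages) obtained from the finite flips
of sparse structures, from the completely decomposable structures, and from any coanalytic
isomorphism-invariant classes that are known to satisfy Vaught's conjecture with unary predicates, by
ordered sums, generalised sums, tree sums, conditions on the infinite prime quotients, countable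
unions, and equivariant Borel codings with finitely many parameters. -/
inductive Tame : (a : ℕ → ℕ) → (Str a → Prop) → Prop
  | flip (a : ℕ → ℕ) : Tame a FlipSparse
  | known (a : ℕ → ℕ) (V : Str a → Prop) : Coanalytic V → Invariant V → UVaught V → Tame a V
  | decomposable (a : ℕ → ℕ) : Tame a Decomposable
  | ordSum (a : ℕ → ℕ) (ε : ℕ) (V : Str a → Prop) : a ε = 2 → Tame a V → Tame a (OrdSum ε V)
  | genSum (a : ℕ → ℕ) (ε : ℕ) (k : ℕ → Bool) (V₁ V₂ : Str a → Prop) : (∀ i, 0 < a i) →
      a ε = 2 → Tame a V₁ → Tame a V₂ → Tame a (GenSum ε k V₁ V₂)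
  | treeSum (a : ℕ → ℕ) (δ : ℕ) (V : Str a → Prop) : (∀ i, 0 < a i) → a δ = 3 →
      Tame a V → Tame a (TreeSum δ V)
  | quotients (a : ℕ → ℕ) (V : Str a → Prop) : (∀ i, 0 < a i) → Tame a V →
      Tame a (PrimeQuotientsIn V)
  | unions (a : ℕ → ℕ) (V : ℕ → Str a → Prop) : (∀ n, Tame a (V n)) →
      Tame a fun x => ∃ n, V n x
  | coding (a b : ℕ → ℕ) (c : List ℕ → Str a → Str b) (d : List ℕ → Str b → Str a)
      (V : Str b → Prop) : Coding c d → Tame b V → Tame a (Coded c d V)

theorem genSum_eq {a : ℕ → ℕ} (ε : ℕ) (k : ℕ → Bool) (V₁ V₂ : Str a → Prop) :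
    GenSum ε k V₁ V₂ = H533R2.VS.IsSum ε k V₁ V₂ := by
  funext x
  exact propext ⟨fun h => ⟨h.refl, h.symm, h.trans, h.inside, h.across, h.blocks, h.index⟩,
    fun h => ⟨h.refl, h.symm, h.trans, h.inside, h.across, h.blocks, h.index⟩⟩

theorem ordSum_eq {a : ℕ → ℕ} (ε : ℕ) (V : Str a → Prop) :
    OrdSum ε V = H533R2.VS.IsOSum ε V := by
  funext x
  exact propext ⟨fun h => ⟨h.irrefl, h.trans, h.weak, h.inside, h.blocks⟩,
    fun h => ⟨h.irrefl, h.trans, h.weak, h.inside, h.blocks⟩⟩

theorem treeSum_eq {a : ℕ → ℕ} (δ : ℕ) (V : Str a → Prop) :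
    TreeSum δ V = W875.TS.IsTree δ V := by
  funext x
  exact propext ⟨fun h => ⟨h.refl, h.irr, h.symm, h.asymm, h.branch, h.mod, h.nodes⟩,
    fun h => ⟨h.refl, h.irr, h.symm, h.c2, h.c3, h.mod, h.nodes⟩⟩

theorem decomposable_eq {a : ℕ → ℕ} : (Decomposable : Str a → Prop) = H533R2.VS.DecG := by
  funext x
  refine propext ⟨fun h => ⟨h.1, fun F hF => ?_⟩, fun h => ⟨h.1, fun F hF => ?_⟩⟩
  · obtain ⟨X, hX1, hX2, hX3, hX4⟩ := h.2 F hF
    refine ⟨X, hX1, hX2, hX3, fun u hu v hv w hw hwX i => ?_⟩
    show (if a i = 2 then _ else _) = (if a i = 2 then _ else _) ∧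
      (if a i = 2 then _ else _) = (if a i = 2 then _ else _)
    by_cases hai : a i = 2
    · simp only [if_pos hai]
      exact hX4 u hu v hv w hw hwX i hai
    · simp only [if_neg hai]
      exact ⟨trivial, trivial⟩
  · obtain ⟨X, hX1, hX2, hX3, hX4⟩ := h.2 F hF
    refine ⟨X, hX1, hX2, hX3, fun u hu v hv w hw hwX i hai => ?_⟩
    have h1 : (if a i = 2 then x i (H533R2.VS.p2 u w) else false) =
        (if a i = 2 then x i (H533R2.VS.p2 v w) else false) ∧
      (if a i = 2 then x i (H533R2.VS.p2 w u) else false) =
        (if a i = 2 then x i (H533R2.VS.p2 w v) else false) := hX4 u hu v hv w hw hwX i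
    simp only [if_pos hai] at h1
    exact h1

/-- Vaught's conjecture (perfect-set form, Borel classes, with or without unary predicates) holds for
all classes in `Tame`, in particular for the finite flips of sparse structures. -/
theorem result : ∀ (a : ℕ → ℕ) (V : Str a → Prop), Tame a V → UVaught V ∧ Vaught V := by
  intro a V hV
  have key : UVaught V ∧ H533R2.VS.Coan V ∧ H533R2.VS.Inv V := by
    induction hV with
    | flip a => exact TH425.FF.flip_all a
    | known a V h1 h2 h3 => exact ⟨h3, h1, h2⟩
    | decomposable a =>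
      rw [decomposable_eq]
      exact ⟨H533R2.VS.vs_dec a, H533R2.VS.vs_kde a⟩
    | ordSum a ε V hε _ ih =>
      rw [ordSum_eq]
      exact ⟨H533R2.VS.vs_ord a ε hε V ih.1, H533R2.VS.vs_kos a ε V ih.2.1⟩
    | genSum a ε k V₁ V₂ ha hε _ _ ih1 ih2 =>
      rw [genSum_eq]
      exact ⟨H533R2.VS.vs_clo a ha ε hε k V₁ V₂ ih1.1 ih2.1,
        H533R2.VS.vs_kis a ε k V₁ V₂ ih1.2.1 ih2.2.1, H533R2.VS.vs_nis a ε k V₁ V₂⟩
    | treeSum a δ V ha hδ _ ih =>
      rw [treeSum_eq]
      exact ⟨W875.TS.ts_tree a ha δ hδ V ih.1, W875.TS.ts_ctree a δ V ih.2.1,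
        W875.TS.ts_itree a δ V⟩
    | quotients a V ha _ ih =>
      exact ⟨W875.TS.ts_mod a ha V ih.1, W875.TS.ts_cmod a V ih.2.1, W875.TS.ts_imod a V⟩
    | unions a V _ ih =>
      exact ⟨TH425.FF.cun_vcu V (fun n => (ih n).1) (fun n => (ih n).2.1) (fun n => (ih n).2.2),
        TH425.FF.cun_coan V fun n => (ih n).2.1, TH425.FF.cun_inv V fun n => (ih n).2.2⟩
    | coding a b c d V hcd _ ih =>
      have h : TH425.FF.PCanon c d := ⟨hcd.borel_c, hcd.borel_d, hcd.act_c, hcd.act_d⟩
      exact ⟨TH425.FF.pexp_vcu h ih.1 ih.2.1 ih.2.2, TH425.FF.pexp_coan h ih.2.1,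
        TH425.FF.pexp_inv h ih.2.2⟩
  exact ⟨key.1, H533R2.VS.vs_plain a V key.1⟩

end Pool.Agent.Results.MP_5df2c5_lc.FiniteFlips
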