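import Pool.Agent.TH783.MD.Free

set_option autoImplicit false

/-!
Vaught's conjecture for first-order theories (perfect-set form) and monadic dependence.

A hereditary class of finite graphs is monadically dependent (monadically NIP) if and only if for
every `r ≥ 1` there is an `N` such that it contains none of the flipped star, clique and half-graph
crossings of length `r` over `N` indices and not the comparability grid over `N` indices (Dreier,
Mählmann, Toruńczyk 2024). For every hereditary class that is *not* monadically dependent,
Vaught's conjecture for all theories in all countable languages is equivalent to its restriction to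
the complete theories of graphs all of whose finite induced subgraphs belong to the class.
-/

namespace Pool.Agent.Results.MP_5df2c5_lc.MonadicDependence

open FirstOrder
open Pool.Agent.TH783.MD.Pat

/-- Vaught's conjecture, perfect-set form, for the theory `T` in the language `L` (the body of the
frozen statement): the models with universe `ℕ` fall into countably many isomorphism classes, or
some continuous family of models, indexed by the Cantor space, consists of pairwise
non-isomorphic models. -/
def Dichotomy (L : FirstOrder.Language.{0, 0}) (T : L.Theory) : Prop :=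
  (∃ g : ℕ → L.Structure ℕ, ∀ S : L.Structure ℕ,
      @FirstOrder.Language.Theory.Model L ℕ S T →
        ∃ n : ℕ, Nonempty (@FirstOrder.Language.Equiv L ℕ ℕ S (g n))) ∨
  (∃ f : (ℕ → Bool) → L.Structure ℕ,
      (∀ x : ℕ → Bool, @FirstOrder.Language.Theory.Model L ℕ (f x) T) ∧
      (∀ x y : ℕ → Bool,
          Nonempty (@FirstOrder.Language.Equiv L ℕ ℕ (f x) (f y)) → x = y) ∧
      (∀ (n : ℕ) (R : L.Relations n) (a : Fin n → ℕ),
          IsClopen {x : ℕ → Bool | @FirstOrder.Language.Structure.RelMap L ℕ (f x) n R a}) ∧
      (∀ (n : ℕ) (F : L.Functions n) (a : Fin n → ℕ) (b : ℕ),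
          IsOpen {x : ℕ → Bool | @FirstOrder.Language.Structure.funMap L ℕ (f x) n F a = b}))

/-- Vaught's conjecture for all first-order theories in all countable languages (the frozen
statement). -/
def FullConjecture : Prop :=
  ∀ L : FirstOrder.Language.{0, 0}, Countable L.Symbols → ∀ T : L.Theory, Dichotomy L T

/-- Adjacency in a structure in the language of graphs. -/
def Adj (S : FirstOrder.Language.graph.Structure ℕ) (u v : ℕ) : Prop :=
  @FirstOrder.Language.Structure.RelMap FirstOrder.Language.graph ℕ S 2
    FirstOrder.Language.adj ![u, v]

/-- All models of `T` on `ℕ` have the property `P` (of their adjacency relation). -/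
def ModelsIn (P : (ℕ → ℕ → Prop) → Prop) (T : FirstOrder.Language.graph.Theory) : Prop :=
  ∀ S : FirstOrder.Language.graph.Structure ℕ,
    @FirstOrder.Language.Theory.Model FirstOrder.Language.graph ℕ S T → P (Adj S)

/-- Vaught's conjecture for the complete theories of graphs all of whose models on `ℕ` have the
property `P`. -/
def Restricted (P : (ℕ → ℕ → Prop) → Prop) : Prop :=
  ∀ T : FirstOrder.Language.graph.Theory, T.IsComplete → ModelsIn P T →
    Dichotomy FirstOrder.Language.graph T

/-- Let `𝒞` be a hereditary class of finite graphs which, for some `r ≥ 1`, contains flipped star,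
clique or half-graph crossings of length `r` or comparability grids of all finite orders (by the
theorem of Dreier, Mählmann and Toruńczyk: which is not monadically dependent). Vaught's conjecture
for all theories is equivalent to its restriction to the complete theories of graphs all of whose
finite induced subgraphs (in models on `ℕ`) belong to `𝒞`. -/
theorem result (𝒞 : (n : ℕ) → SimpleGraph (Fin n) → Prop) (h1 : Hereditary 𝒞)
    (h2 : HasPatterns 𝒞) : FullConjecture ↔ Restricted (LocallyIn 𝒞) := by
  -- the full conjecture implies the restrictions
  have fwd : ∀ P, FullConjecture → Restricted P := by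
    intro P h T _ _
    have h1 : Countable FirstOrder.Language.graph.Symbols := by
      have h2 : Countable (Σ n, FirstOrder.Language.graph.Relations n) :=
        Pool.Agent.W889.FO.StD.countable_LG
      have h3 : IsEmpty (Σ n, FirstOrder.Language.graph.Functions n) :=
        ⟨fun p => Empty.elim p.2⟩
      exact inferInstanceAs (Countable ((Σ n, FirstOrder.Language.graph.Functions n) ⊕
        Σ n, FirstOrder.Language.graph.Relations n))
    exact h _ h1 T
  have mono : ∀ P Q : (ℕ → ℕ → Prop) → Prop, (∀ R, P R → Q R) → Restricted Q → Restricted P :=
    fun P Q h1 h2 T h3 h4 => h2 T h3 fun S hS => h1 _ (h4 S hS)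
  have c1 : ∀ (r : ℕ) (K : Kind) (F : Fin (r + 2) → Fin (r + 2) → Prop)
      (hF : ∀ a b, F a b → F b a), 1 ≤ r →
      Restricted (InducedIn (crossing ℚ r K F hF)) → FullConjecture :=
    fun r K F hF hr h L hL T => Pool.Agent.TH783.MD.fo_crossing hr K hF
      (fun T' h1 h2 => h T' h1 h2) L hL T
  have c2 : Restricted (InducedIn (comparabilityGrid ℚ)) → FullConjecture :=
    fun h L hL T => Pool.Agent.TH783.MD.fo_grid (fun T' h1 h2 => h T' h1 h2) L hL T
  refine ⟨fwd _, fun h => ?_⟩
  rcases h2.one h1 with ⟨r, K, F, hF, hr, h3⟩ | h3
  · exact c1 r K F hF hr (mono _ _ (fun R hR => locally_crossing h1 h3 hR) h)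
  · exact c2 (mono _ _ (fun R hR => locally_grid h1 h3 hR) h)

end Pool.Agent.Results.MP_5df2c5_lc.MonadicDependence
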