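import Pool.Agent.TH578.VT.Fin

set_option autoImplicit false

/-!
# Vaught's conjecture for countable sets of points of unrooted trees

A countable set of points of an unrooted tree (a real tree, a simplicial tree, a dense or discrete
pretree, ...) carries the disjointness relation of the paths `[x, y]` and `[z, w]`, the lengths of
its paths, and the labels of its branch points. `IsTree` axiomatizes these structures.
Special cases, checked at the end of this file, are

* the D-relations of Adeleke and Neumann (`D4` holds, no lengths, no labels);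
* the countable zero-hyperbolic metric spaces, that is the countable subspaces of real trees
  (`D x y z w` iff `d x y + d z w < d x z + d y w`);
* the pretrees of Bowditch (general betweenness relations).

`result` is the perfect-set form of Vaught's conjecture for every isomorphism-invariant Borel class
of such structures, expanded by countably many unary predicates.
-/

namespace Pool.Agent.Results.MP_5df2c5_lc.TreelikeSpaces

/-- A structure on `ℕ`: a quaternary relation `s.1`, symmetric functions `s.2.1 j` of two variables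
with real values, ternary relations `s.2.2.1 i`, and unary predicates `s.2.2.2 i`. -/
abbrev Str : Type :=
  (ℕ → ℕ → ℕ → ℕ → Bool) × (ℕ → ℕ → ℕ → ℝ) × (ℕ → ℕ → ℕ → ℕ → Bool) × (ℕ → ℕ → Bool)

/-- The permutation `σ` is an isomorphism from `s` onto `t`. -/
def IsIso (σ : Equiv.Perm ℕ) (s t : Str) : Prop :=
  (∀ a b c e, t.1 (σ a) (σ b) (σ c) (σ e) = s.1 a b c e) ∧
  (∀ j a b, t.2.1 j (σ a) (σ b) = s.2.1 j a b) ∧
  (∀ i a b c, t.2.2.1 i (σ a) (σ b) (σ c) = s.2.2.1 i a b c) ∧
  ∀ i a, t.2.2.2 i (σ a) = s.2.2.2 i a

/-- Points of a tree: `D x y z w` says that the paths `[x, y]` and `[z, w]` are disjoint, `d j x y`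
is the `j`-th length of the path `[x, y]` (lengths may vanish), and `m i x y z` says that the median
of `x`, `y`, `z` has the `i`-th label. -/
structure IsTree (D : ℕ → ℕ → ℕ → ℕ → Bool) (d : ℕ → ℕ → ℕ → ℝ) (m : ℕ → ℕ → ℕ → ℕ → Bool) :
    Prop where
  /-- paths with a common end are not disjoint -/
  common : ∀ x y w, D x y x w = false
  /-- distinct points are distinct points of the tree -/
  points : ∀ x y, x ≠ y → D x x y y = true
  /-- (D1) -/
  d1 : ∀ x y z w, D x y z w = true → D y x z w = true ∧ D x y w z = true ∧ D z w x y = true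
  /-- (D2) -/
  d2 : ∀ x y z w, D x y z w = true → D x z y w = false
  /-- (D3) -/
  d3 : ∀ x y z w, D x y z w = true → ∀ u, D u y z w = true ∨ D x y z u = true
  /-- the lengths are pseudometrics with the four-point condition -/
  len_self : ∀ j x, d j x x = 0
  len_symm : ∀ j x y, d j x y = d j y x
  len_four : ∀ j x y z w, d j x y + d j z w ≤ max (d j x z + d j y w) (d j x w + d j y z)
  /-- paths which are disjoint by their lengths are disjoint -/
  len_comp : ∀ j x y z w, d j x y + d j z w < d j x z + d j y w → D x y z w = true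
  /-- the median is symmetric -/
  med_symm : ∀ i x y z, m i x y z = m i y x z
  med_cyc : ∀ i x y z, m i x y z = m i y z x
  /-- the label depends only on the branch point: if `[x, z]` meets `[y, w]` and `[x, w]` meets
  `[y, z]`, then `x`, `y`, `z` and `x`, `y`, `w` have the same median -/
  med_label : ∀ i x y z w, D x z y w = false → D x w y z = false → m i x y z = m i x y w

/-- **Vaught's conjecture for countable sets of points of trees, with lengths, labels of the branch
points, and unary predicates.** For every isomorphism-invariant Borel class `B` of such structures,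
either `B` has countably many isomorphism types, or there is a continuous map from Cantor space to
`B` with pairwise non-isomorphic values. -/
theorem result (B : Set Str) (hB : MeasurableSet B)
    (hinv : ∀ (s t : Str) (σ : Equiv.Perm ℕ), IsIso σ s t → s ∈ B → t ∈ B)
    (htree : ∀ s ∈ B, IsTree s.1 s.2.1 s.2.2.1) :
    (∃ f : ℕ → Str, ∀ s ∈ B, ∃ (n : ℕ) (σ : Equiv.Perm ℕ), IsIso σ (f n) s) ∨
    (∃ g : (ℕ → Bool) → Str, Continuous g ∧ (∀ c, g c ∈ B) ∧
      ∀ c d, (∃ σ : Equiv.Perm ℕ, IsIso σ (g c) (g d)) → c = d) :=
  Pool.Agent.TH578.VT.vaught_Tu B hB (fun s t σ => hinv s t σ) fun s hs =>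
    let h := htree s hs
    { gd :=
        { common := fun x y w e => Bool.false_ne_true ((h.common x y w).symm.trans e)
          points := h.points
          s1 := fun x y z w e => (h.d1 x y z w e).1
          s2 := fun x y z w e => (h.d1 x y z w e).2.2
          d2 := fun x y z w e e' => Bool.false_ne_true ((h.d2 x y z w e).symm.trans e')
          d3 := h.d3 }
      self := h.len_self
      symm := h.len_symm
      four := h.len_four
      comp := h.len_comp
      msym := h.med_symm
      mcyc := h.med_cyc
      mlab := h.med_label }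

/-! ### Special cases -/

theorem of_isT {D : ℕ → ℕ → ℕ → ℕ → Bool} {d : ℕ → ℕ → ℕ → ℝ} {m : ℕ → ℕ → ℕ → ℕ → Bool}
    (h : Pool.Agent.TH578.VT.IsT D d m) : IsTree D d m where
  common x y w := Bool.eq_false_of_not_eq_true (h.gd.common x y w)
  points := h.gd.points
  d1 _ _ _ _ e := ⟨h.gd.s1 _ _ _ _ e, h.gd.s3 e, h.gd.s2 _ _ _ _ e⟩
  d2 _ _ _ _ e := Bool.eq_false_of_not_eq_true (h.gd.d2 _ _ _ _ e)
  d3 := h.gd.d3
  len_self := h.self
  len_symm := h.symm
  len_four := h.four
  len_comp := h.comp
  med_symm := h.msym
  med_cyc := h.mcyc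
  med_label := h.mlab

/-- D-relations, with the axioms (D1)-(D4) of Adeleke and Neumann. -/
theorem dRelation_isTree {D : ℕ → ℕ → ℕ → ℕ → Bool}
    (d1 : ∀ x y z w, D x y z w = true → D y x z w = true ∧ D x y w z = true ∧ D z w x y = true)
    (d2 : ∀ x y z w, D x y z w = true → D x z y w = false)
    (d3 : ∀ x y z w, D x y z w = true → ∀ u, D u y z w = true ∨ D x y z u = true)
    (d4 : ∀ x y z, x ≠ z → y ≠ z → D x y z z = true) :
    IsTree D (fun _ _ _ => 0) (fun _ _ _ _ => false) :=
  of_isT (Pool.Agent.TH578.VT.isT_of_D d1 d2 d3 d4)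

open Classical in
/-- Zero-hyperbolic metrics: the metrics of the countable subspaces of real trees. The metric is the
length, and isomorphism is isometry. -/
theorem metric_isTree {d : ℕ → ℕ → ℝ} (h0 : ∀ x, d x x = 0) (hp : ∀ x y, x ≠ y → 0 < d x y)
    (hs : ∀ x y, d x y = d y x)
    (hf : ∀ x y z w, d x y + d z w ≤ max (d x z + d y w) (d x w + d y z)) :
    IsTree (fun x y z w => decide (d x y + d z w < d x z + d y w)) (fun _ => d)
      (fun _ _ _ _ => false) :=
  of_isT (Pool.Agent.TH578.VT.isT_of_metric h0 hp hs hf)

/-- Pretrees, with the axioms of Bowditch for `b x y z`: `y` is strictly between `x` and `z`. The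
relation `D` is definable from `b`, and `b` from `D`. -/
theorem pretree_isTree {b : ℕ → ℕ → ℕ → Bool} (t0 : ∀ x y, b x y x = false)
    (t1 : ∀ x y z, b x y z = true → b z y x = true)
    (t2 : ∀ x y z, b x y z = true → b x z y = false)
    (t3 : ∀ x y z, b x y z = true → ∀ w, w ≠ y → b x y w = true ∨ b w y z = true) :
    ∃ D : ℕ → ℕ → ℕ → ℕ → Bool, IsTree D (fun _ _ _ => 0) (fun _ _ _ _ => false) ∧
      (∀ x y z w, D x y z w = true ↔ ∃ a c, a ≠ c ∧
        (((x = a ∨ b x a c = true) ∧ (y = a ∨ b y a c = true) ∧
          ¬ (z = a ∨ b z a c = true) ∧ ¬ (w = a ∨ b w a c = true)) ∨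
        ((z = a ∨ b z a c = true) ∧ (w = a ∨ b w a c = true) ∧
          ¬ (x = a ∨ b x a c = true) ∧ ¬ (y = a ∨ b y a c = true)))) ∧
      ∀ x y z, b x y z = true ↔ y ≠ x ∧ y ≠ z ∧ ¬ D x z y y = true := by
  classical
  have h : Pool.Agent.TH578.VT.PT b := ⟨t0, t1, t2, t3⟩
  refine ⟨fun x y z w => decide (Pool.Agent.TH578.VT.PD b x y z w),
    of_isT (by convert Pool.Agent.TH578.VT.isT_of_pretree h), ?_, ?_⟩
  · intro x y z w
    exact decide_eq_true_iff
  · intro x y z
    rw [h.iff x y z, decide_eq_true_iff]

end Pool.Agent.Results.MP_5df2c5_lc.TreelikeSpaces
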